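import Pool.Agent.Helper61.Tri.Goals

set_option autoImplicit false

open Finset

namespace Pool.Agent.Helper38.Tri

open Pool.Agent.Helper61.Tri

open scoped Classical

theorem SDι (sd : SD) (ι : Type) [Fintype ι] (m : ℕ) : ∃ N, ∀ (V : Type) (f : ι → ℕ → ℕ → V),
    (∀ i < N, ∀ j < N, ∀ l l', l ≠ l' → f l i j ≠ f l' i j) →
    ∃ ρ γ : ℕ → ℕ, (∀ i < m, ρ i < N ∧ γ i < N) ∧
      (∀ i < m, ∀ j < m, i ≠ j → ρ i ≠ ρ j ∧ γ i ≠ γ j) ∧
      (∀ l, (∀ i < m, ∀ j < m, ∀ i' < m, ∀ j' < m, f l (ρ i) (γ j) = f l (ρ i') (γ j')) ∨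
        DI m (fun i j => f l (ρ i) (γ j))) ∧
      ∀ l l', l ≠ l' → DD m (fun i j => f l (ρ i) (γ j)) (fun i j => f l' (ρ i) (γ j)) := by
  obtain ⟨N, hN⟩ := sd (Fintype.card ι) m
  let e := Fintype.equivFin ι
  refine ⟨N, fun V f hf => ?_⟩
  obtain ⟨ρ, γ, h1, h2, h3, h4⟩ := hN V (fun l => f (e.symm l))
    (fun i hi j hj l l' hl => hf i hi j hj _ _ (fun h => hl (e.symm.injective h)))
  refine ⟨ρ, γ, h1, h2, fun l => ?_, fun l l' hl => ?_⟩
  · have := h3 (e l)
    simpa using this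
  · have := h4 (e l) (e l') (fun h => hl (e.injective h))
    simpa using this

theorem mem_cn {V : Type} [Fintype V] {G : SimpleGraph V} {u v w : V} :
    w ∈ cn G u v ↔ G.Adj u w ∧ G.Adj v w := by
  simp [cn]

/-- choice of a common neighbour outside a small set -/
theorem pick {V : Type} [Fintype V] {G : SimpleGraph V} {s : ℕ} {a b t : V} {S : Finset V}
    (hc : s + 1 ≤ (cn G a b).card) (hS : S.card = s) (hb : b ∈ S) :
    ∃ u ∈ cn G a b, u ≠ t ∧ u ∉ S := by
  by_contra hne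
  push Not at hne
  have hsub : cn G a b ⊆ insert t (S.erase b) := by
    intro u hu
    by_cases h : u = t
    · simp [h]
    · have h2 := hne u hu h
      have h3 : u ≠ b := by
        rintro rfl
        exact G.loopless.irrefl _ (mem_cn.1 hu).2
      simp [h3, h2]
  have h1 := Finset.card_le_card hsub
  have h2 := Finset.card_insert_le t (S.erase b)
  have h3 := Finset.card_erase_of_mem hb
  have h4 : 0 < S.card := Finset.card_pos.2 ⟨b, hb⟩
  omega

theorem u2 : EPTools → SD → E3 → E6 → E7 → E8 → U2 := by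
  intro ep sd e3 e6 e7 e8 s hs κ hκ
  set m := 40 * s + 100 with hm
  obtain ⟨M, hM⟩ := SDι sd (Fin s ⊕ Fin 4) m
  obtain ⟨N, hN⟩ := SDι sd (Fin s ⊕ Fin 2) (M + 2)
  refine ⟨N, fun V _ G x w hno grid hE => ?_⟩
  by_contra hcon
  push Not at hcon
  -- enumeration of the common neighbours
  have hen : ∀ i j, ∃ f : Fin s → V, i < N → j < N →
      Function.Injective f ∧ ∀ v, v ∈ cn G (x i) (w j) ↔ ∃ l, f l = v := by
    intro i j
    by_cases h : i < N ∧ j < N
    · have hc := (hE i h.1 j h.2).2.1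
      refine ⟨fun l => ((cn G (x i) (w j)).equivFinOfCardEq hc).symm l, fun _ _ => ⟨?_, ?_⟩⟩
      · intro l l' hl
        exact ((cn G (x i) (w j)).equivFinOfCardEq hc).symm.injective (Subtype.ext hl)
      · intro v
        constructor
        · intro hv
          exact ⟨((cn G (x i) (w j)).equivFinOfCardEq hc) ⟨v, hv⟩, by simp⟩
        · rintro ⟨l, rfl⟩
          exact (((cn G (x i) (w j)).equivFinOfCardEq hc).symm l).2
    · exact ⟨fun _ => x 0, fun h1 h2 => absurd ⟨h1, h2⟩ h⟩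
  choose f hf using hen
  -- first application of SD
  let F : (Fin s ⊕ Fin 2) → ℕ → ℕ → V := fun l i j =>
    Sum.elim (fun l => f i j l) (fun k => if k = 0 then x i else w j) l
  have hFd : ∀ i < N, ∀ j < N, ∀ l l', l ≠ l' → F l i j ≠ F l' i j := by
    intro i hi j hj l l' hl
    have hfi := hf i j hi hj
    have hadj := grid.adj i hi j hj
    have hxw : x i ≠ w j := hadj.ne
    have hfx : ∀ l, f i j l ≠ x i := fun l h => by
      have := (mem_cn.1 ((hfi.2 _).2 ⟨l, rfl⟩)).1
      rw [h] at this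
      exact G.loopless.irrefl _ this
    have hfw : ∀ l, f i j l ≠ w j := fun l h => by
      have := (mem_cn.1 ((hfi.2 _).2 ⟨l, rfl⟩)).2
      rw [h] at this
      exact G.loopless.irrefl _ this
    rcases l with l | k <;> rcases l' with l' | k'
    · intro h
      exact hl (by rw [hfi.1 h])
    · by_cases hk : k' = 0
      · simpa [F, hk] using hfx l
      · simpa [F, hk] using hfw l
    · by_cases hk : k = 0
      · simpa [F, hk] using (hfx l').symm
      · simpa [F, hk] using (hfw l').symm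
    · by_cases hk : k = 0 <;> by_cases hk' : k' = 0
      · exact absurd (by rw [hk, hk']) hl
      · simpa [F, hk, hk'] using hxw
      · simpa [F, hk, hk'] using hxw.symm
      · have h1 : k = 1 := by omega
        have h2 : k' = 1 := by omega
        exact absurd (by rw [h1, h2]) hl
  obtain ⟨ρ, γ, hρN, hρi, hcd, hdd⟩ := hN V F hFd
  -- not all constant
  have hl0 : ∃ l0 : Fin s, DI (M + 2) (fun i j => F (Sum.inl l0) (ρ i) (γ j)) := by
    by_contra hall
    push Not at hall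
    have h0 := hρN 0 (by omega)
    have h1 := hρN 1 (by omega)
    apply hcon (ρ 0) h0.1 (γ 0) h0.2 (γ 1) h1.2 (hρi 0 (by omega) 1 (by omega) (by norm_num)).2
    ext v
    rw [(hf _ _ h0.1 h0.2).2, (hf _ _ h0.1 h1.2).2]
    refine exists_congr fun l => ?_
    have hc := (hcd (Sum.inl l)).resolve_right (hall l)
    have := hc 0 (by omega) 0 (by omega) 0 (by omega) 1 (by omega)
    simp only [F, Sum.elim_inl] at this
    rw [this]
  obtain ⟨l0, hl0⟩ := hl0
  -- choice of u and z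
  have hG2 : ∀ i < M, ∀ j < M, s + 1 ≤ (cn G (x (ρ i)) (f (ρ i) (γ j) l0)).card ∧
      s + 1 ≤ (cn G (w (γ j)) (f (ρ i) (γ j) l0)).card := by
    intro i hi j hj
    have h1 := hρN i (by omega)
    have h2 := hρN j (by omega)
    have hy := ((hf _ _ h1.1 h2.2).2 _).2 ⟨l0, rfl⟩
    have := (hE _ h1.1 _ h2.2).2.2 _ hy
    exact ⟨this.1.2, this.2.symm.2⟩
  have hu : ∀ i j, ∃ u, i < M → j < M → u ∈ cn G (x (ρ i)) (f (ρ i) (γ j) l0) ∧ u ≠ w (γ j) ∧
      u ∉ cn G (x (ρ i)) (w (γ j)) := by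
    intro i j
    by_cases h : i < M ∧ j < M
    · have h1 := hρN i (by omega)
      have h2 := hρN j (by omega)
      obtain ⟨u, hu1, hu2, hu3⟩ := pick (t := w (γ j)) (hG2 i h.1 j h.2).1
        (hE _ h1.1 _ h2.2).2.1 (((hf _ _ h1.1 h2.2).2 _).2 ⟨l0, rfl⟩)
      exact ⟨u, fun _ _ => ⟨hu1, hu2, hu3⟩⟩
    · exact ⟨x 0, fun h1 h2 => absurd ⟨h1, h2⟩ h⟩
  have hz : ∀ i j, ∃ u, i < M → j < M → u ∈ cn G (w (γ j)) (f (ρ i) (γ j) l0) ∧ u ≠ x (ρ i) ∧
      u ∉ cn G (x (ρ i)) (w (γ j)) := by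
    intro i j
    by_cases h : i < M ∧ j < M
    · have h1 := hρN i (by omega)
      have h2 := hρN j (by omega)
      obtain ⟨u, hu1, hu2, hu3⟩ := pick (t := x (ρ i)) (hG2 i h.1 j h.2).2
        (hE _ h1.1 _ h2.2).2.1 (((hf _ _ h1.1 h2.2).2 _).2 ⟨l0, rfl⟩)
      exact ⟨u, fun _ _ => ⟨hu1, hu2, hu3⟩⟩
    · exact ⟨x 0, fun h1 h2 => absurd ⟨h1, h2⟩ h⟩
  choose u hu using hu
  choose z hz using hz
  -- second application
  let H : (Fin s ⊕ Fin 4) → ℕ → ℕ → V := fun l i j =>
    Sum.elim (fun l => f (ρ i) (γ j) l)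
      (fun k => if k = 0 then x (ρ i) else if k = 1 then w (γ j) else if k = 2 then u i j
        else z i j) l
  have hHd : ∀ i < M, ∀ j < M, ∀ l l', l ≠ l' → H l i j ≠ H l' i j := by
    intro i hi j hj l l' hl
    have hiN := (hρN i (by omega)).1
    have hjN := (hρN j (by omega)).2
    have hfi := hf (ρ i) (γ j) hiN hjN
    have hadj := grid.adj _ hiN _ hjN
    have hxw : x (ρ i) ≠ w (γ j) := hadj.ne
    have hfx : ∀ l, f (ρ i) (γ j) l ≠ x (ρ i) := fun l h => by
      have := (mem_cn.1 ((hfi.2 _).2 ⟨l, rfl⟩)).1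
      rw [h] at this
      exact G.loopless.irrefl _ this
    have hfw : ∀ l, f (ρ i) (γ j) l ≠ w (γ j) := fun l h => by
      have := (mem_cn.1 ((hfi.2 _).2 ⟨l, rfl⟩)).2
      rw [h] at this
      exact G.loopless.irrefl _ this
    obtain ⟨u1, u2, u3⟩ := hu i j hi hj
    obtain ⟨z1, z2, z3⟩ := hz i j hi hj
    have hfu : ∀ l, f (ρ i) (γ j) l ≠ u i j := fun l h => u3 (by
      rw [← h]; exact (hfi.2 _).2 ⟨l, rfl⟩)
    have hfz : ∀ l, f (ρ i) (γ j) l ≠ z i j := fun l h => z3 (by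
      rw [← h]; exact (hfi.2 _).2 ⟨l, rfl⟩)
    have hux : u i j ≠ x (ρ i) := fun h => by
      have := (mem_cn.1 u1).1
      rw [h] at this
      exact G.loopless.irrefl _ this
    have hzw : z i j ≠ w (γ j) := fun h => by
      have := (mem_cn.1 z1).1
      rw [h] at this
      exact G.loopless.irrefl _ this
    have huz : u i j ≠ z i j := fun h => u3 (by
      rw [mem_cn]
      refine ⟨(mem_cn.1 u1).1, ?_⟩
      rw [h]
      exact (mem_cn.1 z1).1)
    rcases l with l | k <;> rcases l' with l' | k'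
    · intro h
      exact hl (by rw [hfi.1 h])
    · fin_cases k'
      · simpa [H] using hfx l
      · simpa [H] using hfw l
      · simpa [H] using hfu l
      · simpa [H] using hfz l
    · fin_cases k
      · simpa [H] using (hfx l').symm
      · simpa [H] using (hfw l').symm
      · simpa [H] using (hfu l').symm
      · simpa [H] using (hfz l').symm
    · fin_cases k <;> fin_cases k' <;> first | exact absurd rfl hl | skip
      · simpa [H] using hxw
      · simpa [H] using hux.symm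
      · simpa [H] using z2.symm
      · simpa [H] using hxw.symm
      · simpa [H] using u2.symm
      · simpa [H] using hzw.symm
      · simpa [H] using hux
      · simpa [H] using u2
      · simpa [H] using huz
      · simpa [H] using z2
      · simpa [H] using hzw
      · simpa [H] using huz.symm
  obtain ⟨ρ', γ', hρN', hρi', hcd', hdd'⟩ := hM V H hHd
  -- the final grid
  let X : ℕ → V := fun i => x (ρ (ρ' i))
  let W : ℕ → V := fun j => w (γ (γ' j))
  let Y : ℕ → ℕ → V := fun i j => f (ρ (ρ' i)) (γ (γ' j)) l0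
  let U : ℕ → ℕ → V := fun i j => u (ρ' i) (γ' j)
  let Z : ℕ → ℕ → V := fun i j => z (ρ' i) (γ' j)
  have hiN : ∀ i < m, ρ (ρ' i) < N := fun i hi => (hρN _ (by have := (hρN' i hi).1; omega)).1
  have hjN : ∀ j < m, γ (γ' j) < N := fun j hj => (hρN _ (by have := (hρN' j hj).2; omega)).2
  have hgrid : Grid G m X W := by
    refine ⟨fun i hi j hj => grid.adj _ (hiN i hi) _ (hjN j hj), ?_, ?_⟩
    · intro i hi j hj h
      by_contra hne
      have h1 := (hρi' i hi j hj hne).1
      have h2 := (hρi _ (by have := (hρN' i hi).1; omega) _ (by have := (hρN' j hj).1; omega) h1).1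
      exact h2 (grid.injx _ (hiN i hi) _ (hiN j hj) h)
    · intro i hi j hj h
      by_contra hne
      have h1 := (hρi' i hi j hj hne).2
      have h2 := (hρi _ (by have := (hρN' i hi).2; omega) _ (by have := (hρN' j hj).2; omega) h1).2
      exact h2 (grid.injw _ (hjN i hi) _ (hjN j hj) h)
  have hmem : ∀ i < m, ∀ j < m, ∀ l, G.Adj (X i) (f (ρ (ρ' i)) (γ (γ' j)) l) ∧
      G.Adj (W j) (f (ρ (ρ' i)) (γ (γ' j)) l) := fun i hi j hj l =>
    mem_cn.1 (((hf _ _ (hiN i hi) (hjN j hj)).2 _).2 ⟨l, rfl⟩)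
  -- disjointness
  have dfx : ∀ l, DD m (fun i j => f (ρ (ρ' i)) (γ (γ' j)) l) (fun i _ => X i) := by
    intro l
    have := hdd' (Sum.inl l) (Sum.inr 0) (by simp)
    simpa [H] using this
  have dfw : ∀ l, DD m (fun i j => f (ρ (ρ' i)) (γ (γ' j)) l) (fun _ j => W j) := by
    intro l
    have := hdd' (Sum.inl l) (Sum.inr 1) (by simp)
    simpa [H] using this
  have dfu : ∀ l, DD m (fun i j => f (ρ (ρ' i)) (γ (γ' j)) l) U := by
    intro l
    have := hdd' (Sum.inl l) (Sum.inr 2) (by simp)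
    simpa [H] using this
  have dfz : ∀ l, DD m (fun i j => f (ρ (ρ' i)) (γ (γ' j)) l) Z := by
    intro l
    have := hdd' (Sum.inl l) (Sum.inr 3) (by simp)
    simpa [H] using this
  have dff : ∀ l l', l ≠ l' → DD m (fun i j => f (ρ (ρ' i)) (γ (γ' j)) l)
      (fun i j => f (ρ (ρ' i)) (γ (γ' j)) l') := by
    intro l l' hl
    have := hdd' (Sum.inl l) (Sum.inl l') (by simpa using hl)
    simpa [H] using this
  have dux : DD m U (fun i _ => X i) := by
    have := hdd' (Sum.inr 2) (Sum.inr 0) (by simp)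
    simpa [H] using this
  have duw : DD m U (fun _ j => W j) := by
    have := hdd' (Sum.inr 2) (Sum.inr 1) (by simp)
    simpa [H] using this
  have dzx : DD m Z (fun i _ => X i) := by
    have := hdd' (Sum.inr 3) (Sum.inr 0) (by simp)
    simpa [H] using this
  have dzw : DD m Z (fun _ j => W j) := by
    have := hdd' (Sum.inr 3) (Sum.inr 1) (by simp)
    simpa [H] using this
  have duz : DD m U Z := by
    have := hdd' (Sum.inr 2) (Sum.inr 3) (by simp)
    simpa [H] using this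
  have hsym : ∀ (g h : ℕ → ℕ → V), DD m g h → DD m h g := fun g h hd i hi j hj i' hi' j' hj' e =>
    hd i' hi' j' hj' i hi j hj e.symm
  -- y is DI
  have hYdi : DI m Y := by
    intro i hi j hj i' hi' j' hj' hii hjj
    refine hl0 _ (by have := (hρN' i hi).1; omega) _ (by have := (hρN' j hj).2; omega) _
      (by have := (hρN' i' hi').1; omega) _ (by have := (hρN' j' hj').2; omega) ?_ ?_
    · exact (hρi' i hi i' hi' hii).1
    · exact (hρi' j hj j' hj' hjj).2
  have hYap : Apex G m X W Y :=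
    ⟨fun i hi j hj => (hmem i hi j hj l0).1, fun i hi j hj => (hmem i hi j hj l0).2, hYdi,
      dfx l0, dfw l0⟩
  have hUadj : ∀ i < m, ∀ j < m, G.Adj (X i) (U i j) ∧ G.Adj (Y i j) (U i j) := fun i hi j hj =>
    mem_cn.1 (hu _ _ (hρN' i hi).1 (hρN' j hj).2).1
  have hZadj : ∀ i < m, ∀ j < m, G.Adj (W j) (Z i j) ∧ G.Adj (Y i j) (Z i j) := fun i hi j hj =>
    mem_cn.1 (hz _ _ (hρN' i hi).1 (hρN' j hj).2).1
  have hfin : Has Kind.P s G ∧ Has Kind.Ce s G ∧ Has Kind.Co s G := by
    by_cases hA : ∃ l1, l1 ≠ l0 ∧ DI m (fun i j => f (ρ (ρ' i)) (γ (γ' j)) l1)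
    · obtain ⟨l1, hl1, hdi⟩ := hA
      have hgap : Apex G m X W (fun i j => f (ρ (ρ' i)) (γ (γ' j)) l1) :=
        ⟨fun i hi j hj => (hmem i hi j hj l1).1, fun i hi j hj => (hmem i hi j hj l1).2, hdi,
          dfx l1, dfw l1⟩
      have h3 := e3 s (by omega) V G m X W le_rfl hgrid Y _ hYap hgap (dff l0 l1 hl1.symm)
      obtain ⟨S, hS1, -, hS3⟩ := e6 s hs V G m X W le_rfl hgrid Y _ Z hYap hgap
        (dff l0 l1 hl1.symm) (fun i hi j hj => ⟨(hZadj i hi j hj).2, (hZadj i hi j hj).1⟩)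
        dzx dzw (hsym _ _ (dfz l0)) (hsym _ _ (dfz l1))
      have h0m : 0 < m := by omega
      refine ⟨h3.1, h3.2, X 0, Y 0 0, U 0 0, S, hS1, (hmem 0 h0m 0 h0m l0).1,
        (hUadj 0 h0m 0 h0m).1, (hUadj 0 h0m 0 h0m).2, ?_⟩
      intro hUS
      rcases hS3 _ hUS with ⟨i, hi, h⟩ | ⟨i, hi, h⟩ | ⟨i, hi, j, hj, h⟩ | ⟨i, hi, j, hj, h⟩ | h
      · exact dux 0 h0m 0 h0m i hi 0 h0m h
      · exact duw 0 h0m 0 h0m 0 h0m i hi h
      · exact (hsym _ _ (dfu l0)) 0 h0m 0 h0m i hi j hj h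
      · exact (hsym _ _ (dfu l1)) 0 h0m 0 h0m i hi j hj h
      · exact duz 0 h0m 0 h0m 0 h0m 0 h0m h
    · push Not at hA
      have h0m : 0 < m := by omega
      obtain ⟨t, rfl⟩ : ∃ t, s = t + 1 := ⟨s - 1, by omega⟩
      have hconst : ∀ l, l ≠ l0 → ∀ i < m, ∀ j < m,
          f (ρ (ρ' i)) (γ (γ' j)) l = f (ρ (ρ' 0)) (γ (γ' 0)) l := by
        intro l hl i hi j hj
        have := (hcd' (Sum.inl l)).resolve_right (by simpa [H] using hA l hl)
        have := this i hi j hj 0 h0m 0 h0m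
        simpa [H] using this
      let c : Fin (t + 1 - 1) → V := fun l => f (ρ (ρ' 0)) (γ (γ' 0)) (l0.succAbove l)
      have hcne : ∀ l : Fin (t + 1 - 1), (l0.succAbove l : Fin (t + 1)) ≠ l0 := fun l =>
        Fin.succAbove_ne l0 l
      have hUZ : UZ G (t + 1) m X W c Y U Z := by
        refine ⟨hgrid, ?_, ?_, hYap, hUadj, hZadj, ?_, ?_, ?_, dux, duw, dzx, dzw,
          hsym _ _ (dfu l0), hsym _ _ (dfz l0), duz⟩
        · intro l l' hl
          by_contra hne
          exact dff (l0.succAbove l) (l0.succAbove l')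
            (fun h => hne (Fin.succAbove_right_injective h)) 0 h0m 0 h0m 0 h0m 0 h0m hl
        · intro l i hi
          constructor
          · have := (hmem i hi i hi (l0.succAbove l)).1
            rwa [hconst _ (hcne l) i hi i hi] at this
          · have := (hmem i hi i hi (l0.succAbove l)).2
            rwa [hconst _ (hcne l) i hi i hi] at this
        · intro l i hi j hj i' _ j' _
          exact dff l0 _ (hcne l).symm i hi j hj 0 h0m 0 h0m
        · intro l i hi j hj i' _ j' _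
          exact (hsym _ _ (dfu (l0.succAbove l))) i hi j hj 0 h0m 0 h0m
        · intro l i hi j hj i' _ j' _
          exact (hsym _ _ (dfz (l0.succAbove l))) i hi j hj 0 h0m 0 h0m
      have h8 := e8 (t + 1) hs V G m X W c Y U Z le_rfl hUZ
      have h7 := e7 (t + 1) hs V G m X W c Y U Z le_rfl hUZ
      exact ⟨h8.1, h8.2, h7⟩
  apply hno
  cases κ with
  | P => exact hfin.1
  | Ce => exact hfin.2.1
  | Co => exact hfin.2.2
  | Po => exact absurd rfl hκ

end Pool.Agent.Helper38.Tri
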